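import Mathlib
import Pool.Agent.Q304.KU.Rank

set_option autoImplicit false

/-!
# The finite levels of the well-founded part of the Rudin-Frolik order

The displayed description of `wf_{n+1}` is right for `n = 1` and wrong for every `n ≥ 2`, where it
is disjoint from `wf_{n+1}`; the right description has `u` in `wf_n` and the `f i` in `wf_1`.
-/

open Set Filter Topology

namespace Pool.Agent.Results.MP_e112c8_lc.Levels

/-- `f~(u)`: the value at `u` of the continuous extension of `f : ω → βω`. A set `A` belongs to it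
iff `{i | A ∈ f i} ∈ u`, see `mem_lim`. -/
def lim (f : ℕ → Ultrafilter ℕ) (u : Ultrafilter ℕ) : Ultrafilter ℕ := u.bind f

lemma mem_lim (f : ℕ → Ultrafilter ℕ) (u : Ultrafilter ℕ) (A : Set ℕ) :
    A ∈ lim f u ↔ {i | A ∈ f i} ∈ u := Filter.mem_bind'

/-- `f : ω → βω` is one-to-one with discrete range. -/
def InjDisc (f : ℕ → Ultrafilter ℕ) : Prop :=
  Function.Injective f ∧ DiscreteTopology (Set.range f)

/-- Rudin-Frolik preorder. -/
def LeRF (u v : Ultrafilter ℕ) : Prop := ∃ f, InjDisc f ∧ lim f u = v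

/-- Strict part of the Rudin-Frolik preorder. -/
def LtRF (u v : Ultrafilter ℕ) : Prop := LeRF u v ∧ ¬ LeRF v u

/-- `wf_n`: the elements of the well-founded part (`Acc`; no infinite descending sequence, see the
first clause of `result`) of rank `n`, where the rank is the least ordinal greater than the ranks
of all strict predecessors. -/
def wf (n : ℕ) : Set (Ultrafilter ℕ) := {u | ∃ h : Acc LtRF u, h.rank = n}

/-- The set displayed in Q1: all `f~(u)` with `u` and all `f i` in `wf_n`. -/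
def Displayed (n : ℕ) : Set (Ultrafilter ℕ) :=
  {x | ∃ u f, InjDisc f ∧ u ∈ wf n ∧ (∀ i, f i ∈ wf n) ∧ lim f u = x}

/-- All `f~(u)` with `u` in `wf_n` and all `f i` in `wf_1`. -/
def Corrected (n : ℕ) : Set (Ultrafilter ℕ) :=
  {x | ∃ u f, InjDisc f ∧ u ∈ wf n ∧ (∀ i, f i ∈ wf 1) ∧ lim f u = x}

/-- Discretely weak p-points: nonprincipal, and in the closure of no countable discrete set of other
nonprincipal ultrafilters. -/
def IsDWP (u : Ultrafilter ℕ) : Prop :=
  (∀ n : ℕ, u ≠ pure n) ∧ ∀ D : Set (Ultrafilter ℕ), D.Countable → DiscreteTopology D →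
    (∀ v ∈ D, (∀ n : ℕ, v ≠ pure n) ∧ v ≠ u) → u ∉ closure D

open Pool.Agent.Q304.KU (Sep NP Lv Lt Mn)

lemma injDisc_iff (f : ℕ → Ultrafilter ℕ) : InjDisc f ↔ ∃ κ, Sep f κ := by
  classical
  constructor
  · rintro ⟨hinj, hdisc⟩
    rw [discreteTopology_subtype_iff'] at hdisc
    have hA : ∀ n, ∃ A : Set ℕ, A ∈ f n ∧ ∀ m, m ≠ n → A ∉ f m := by
      intro n
      obtain ⟨O, hO, hO2⟩ := hdisc (f n) ⟨n, rfl⟩
      have hn : f n ∈ O := by
        have : f n ∈ O ∩ Set.range f := by rw [hO2]; rfl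
        exact this.1
      obtain ⟨_, ⟨A, rfl⟩, hA1, hA2⟩ := ultrafilterBasis_is_basis.exists_subset_of_mem_open hn hO
      refine ⟨A, hA1, fun m hm hmA => hm ?_⟩
      have : f m ∈ O ∩ Set.range f := ⟨hA2 hmA, m, rfl⟩
      rw [hO2] at this
      exact hinj this
    choose A hA1 hA2 using hA
    let κ : ℕ → ℕ := fun x => if h : ∃ n, x ∈ A n then Nat.find h else 0
    refine ⟨κ, fun n => ?_⟩
    have hb : (⋂ m ∈ Finset.range n, (A m)ᶜ) ∈ f n :=
      (Filter.biInter_finset_mem _).2 fun m hm => Ultrafilter.compl_mem_iff_notMem.2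
        (hA2 m n (by have := Finset.mem_range.1 hm; omega))
    refine mem_of_superset (inter_mem (hA1 n) hb) ?_
    rintro x ⟨hx1, hx2⟩
    simp only [mem_iInter, Finset.mem_range] at hx2
    have hex : ∃ n, x ∈ A n := ⟨n, hx1⟩
    have h1 : κ x = Nat.find hex := dif_pos hex
    change κ x = n
    rw [h1]
    apply le_antisymm (Nat.find_min' hex hx1)
    by_contra hlt
    exact hx2 _ (not_le.1 hlt) (Nat.find_spec hex)
  · rintro ⟨κ, hκ⟩
    refine ⟨hκ.injective, ?_⟩
    rw [discreteTopology_subtype_iff']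
    rintro _ ⟨n, rfl⟩
    refine ⟨{w | κ ⁻¹' {n} ∈ w}, ultrafilter_isOpen_basic _, ?_⟩
    ext w
    constructor
    · rintro ⟨h1, m, rfl⟩
      have : m ∈ ({n} : Set ℕ) := (hκ.pre m _).1 h1
      rw [Set.mem_singleton_iff.1 this]
      rfl
    · rintro rfl
      exact ⟨hκ n, n, rfl⟩

lemma leRF_iff (u v : Ultrafilter ℕ) : LeRF u v ↔ Pool.Agent.Q304.KU.LeRF u v := by
  constructor
  · rintro ⟨f, hf, h⟩
    obtain ⟨κ, hκ⟩ := (injDisc_iff f).1 hf
    exact ⟨f, κ, hκ, h⟩
  · rintro ⟨f, κ, hκ, h⟩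
    exact ⟨f, (injDisc_iff f).2 ⟨κ, hκ⟩, h⟩

lemma ltRF_eq : LtRF = Lt := by
  funext u v
  simp only [LtRF, Lt, leRF_iff]

lemma wf_eq (n : ℕ) : wf n = Lv n := by
  unfold wf Lv
  rw [ltRF_eq]

lemma np_iff (u : Ultrafilter ℕ) : (∀ n : ℕ, u ≠ pure n) ↔ NP u := by
  constructor
  · intro h
    by_contra hn
    obtain ⟨n, hn⟩ := (Pool.Agent.Q304.KU.not_np_iff u).1 hn
    exact h n hn
  · rintro h n rfl
    exact Pool.Agent.Q304.KU.not_np_pure n h

lemma dwp_mn {u : Ultrafilter ℕ} (hu : IsDWP u) : Mn u := by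
  refine ⟨(np_iff u).1 hu.1, ?_⟩
  rintro v ⟨g, σ, hg, rfl⟩ hv
  apply Pool.Agent.Q304.KU.weak_back hg
  intro hnp
  let D : Set (Ultrafilter ℕ) := {w | w ∈ Set.range g ∧ NP w ∧ w ≠ v.bind g}
  refine hu.2 D ((Set.countable_range g).mono fun w hw => hw.1) ?_ ?_ ?_
  · exact ((injDisc_iff g).2 ⟨σ, hg⟩).2.of_subset fun w hw => hw.1
  · intro w hw
    exact ⟨(np_iff w).2 hw.2.1, hw.2.2⟩
  · rw [ultrafilterBasis_is_basis.mem_closure_iff]
    rintro _ ⟨B, rfl⟩ hB
    have hB' : {m | B ∈ g m} ∈ v := Pool.Agent.Q304.KU.mem_bnd.1 hB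
    have h3 : {m | g m = v.bind g}ᶜ ∈ v := by
      apply hv
      apply Set.Finite.compl_mem_cofinite
      apply Set.Subsingleton.finite
      intro a ha b hb
      exact hg.injective ((show g a = _ from ha).trans (show g b = _ from hb).symm)
    obtain ⟨m, hm1, hm2, hm3⟩ := v.nonempty_of_mem (inter_mem hB' (inter_mem hnp h3))
    exact ⟨g m, hm1, ⟨m, rfl⟩, hm2, hm3⟩

lemma acc_iff (u : Ultrafilter ℕ) : Acc LtRF u ↔
    ¬ ∃ s : ℕ → Ultrafilter ℕ, s 0 = u ∧ ∀ n, LtRF (s (n + 1)) (s n) := by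
  constructor
  · intro h
    induction h with
    | intro u _ ih =>
      rintro ⟨s, rfl, hs⟩
      exact ih (s 1) (hs 0) ⟨fun n => s (n + 1), rfl, fun n => hs (n + 1)⟩
  · intro h
    by_contra hacc
    have hstep : ∀ w : {w // ¬ Acc LtRF w}, ∃ w' : {w // ¬ Acc LtRF w}, LtRF w'.1 w.1 := by
      rintro ⟨w, hw⟩
      by_contra hcon
      push Not at hcon
      exact hw (Acc.intro w fun y hy => by
        by_contra hy'
        exact hcon ⟨y, hy'⟩ hy)
    choose nx hnx using hstep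
    apply h
    refine ⟨fun n => (nx^[n] ⟨u, hacc⟩).1, rfl, fun n => ?_⟩
    have := hnx (nx^[n] ⟨u, hacc⟩)
    change LtRF (nx^[n + 1] ⟨u, hacc⟩).1 _
    rw [Function.iterate_succ_apply']
    exact this

lemma corrected_eq {n : ℕ} (hn : 1 ≤ n) : wf (n + 1) = Corrected n := by
  ext x
  constructor
  · intro hx
    rw [wf_eq] at hx
    obtain ⟨u, f, κ, hf, hu, hm, rfl⟩ := Pool.Agent.Q304.KU.lv_decomp hn hx
    refine ⟨u, f, (injDisc_iff f).2 ⟨κ, hf⟩, by rw [wf_eq]; exact hu, fun i => ?_, rfl⟩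
    rw [wf_eq]
    exact Pool.Agent.Q304.KU.lv_one.2 (hm i)
  · rintro ⟨u, f, hf, hu, hfi, rfl⟩
    obtain ⟨κ, hκ⟩ := (injDisc_iff f).1 hf
    rw [wf_eq] at hu ⊢
    refine Pool.Agent.Q304.KU.lv_step hκ ?_ hn hu
    have : {i | Mn (f i)} = Set.univ := by
      ext i
      simp only [mem_ofPred_eq, mem_univ, iff_true]
      have := hfi i
      rw [wf_eq] at this
      exact Pool.Agent.Q304.KU.lv_one.1 this
    rw [this]
    exact univ_mem

/-- **Answer to Q1.** (0) `Acc LtRF u` says that there is no infinite `<_RF`-descending sequence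
from `u`. (1) For `n = 1` the displayed equality holds. (2) If `u` and all `f i` are discretely
weak p-points, then `f~(u) ∈ wf_2`. (3) For every `n ≥ 1`, `wf_{n+1}` is nonempty and is the set of
all `f~(u)` with `u ∈ wf_n` and all `f i ∈ wf_1`. (4) For every `n ≥ 2` the displayed set is
nonempty and disjoint from `wf_{n+1}`; in particular the displayed equality fails. -/
theorem result :
    (∀ u, Acc LtRF u ↔
      ¬ ∃ s : ℕ → Ultrafilter ℕ, s 0 = u ∧ ∀ n, LtRF (s (n + 1)) (s n)) ∧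
    wf 2 = Displayed 1 ∧
    (∀ u f, IsDWP u → (∀ i, IsDWP (f i)) → InjDisc f → lim f u ∈ wf 2) ∧
    (∀ n, 1 ≤ n → (wf (n + 1)).Nonempty ∧ wf (n + 1) = Corrected n) ∧
    (∀ n, 2 ≤ n → (Displayed n).Nonempty ∧ Displayed n ∩ wf (n + 1) = ∅ ∧
      wf (n + 1) ≠ Displayed n) := by
  refine ⟨acc_iff, corrected_eq le_rfl, ?_, fun n hn => ⟨?_, corrected_eq hn⟩, ?_⟩
  · intro u f hu hf hd
    have h : lim f u ∈ Corrected 1 := by
      refine ⟨u, f, hd, ?_, fun i => ?_, rfl⟩
      · rw [wf_eq]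
        exact Pool.Agent.Q304.KU.lv_one.2 (dwp_mn hu)
      · rw [wf_eq]
        exact Pool.Agent.Q304.KU.lv_one.2 (dwp_mn (hf i))
    rwa [← corrected_eq le_rfl] at h
  · rw [wf_eq]
    exact Pool.Agent.Q304.KU.lv_nonempty n
  · intro n hn
    have hne : (Displayed n).Nonempty := by
      obtain ⟨k, rfl⟩ : ∃ k, n = k + 1 := ⟨n - 1, by omega⟩
      obtain ⟨w, hw⟩ := Pool.Agent.Q304.KU.lv_nonempty k
      refine ⟨_, w, fun i => w.map (Nat.pair i), (injDisc_iff _).2
        ⟨_, Pool.Agent.Q304.KU.sep_copies w⟩, by rw [wf_eq]; exact hw, fun i => ?_, rfl⟩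
      rw [wf_eq]
      have := Pool.Agent.Q304.KU.iso w (Nat.pair i) (Pool.Agent.Q304.KU.pair_inj i)
      exact Pool.Agent.Q304.KU.lv_congr this.2 this.1 hw
    have hdisj : Displayed n ∩ wf (n + 1) = ∅ := by
      rw [Set.eq_empty_iff_forall_notMem]
      rintro x ⟨⟨u, f, hf, hu, hfi, rfl⟩, hx⟩
      obtain ⟨κ, hκ⟩ := (injDisc_iff f).1 hf
      rw [wf_eq] at hu hx
      have hN : {i | ∃ v, Pool.Agent.Q304.KU.LeRF v (f i) ∧ NP v ∧
          ¬ Pool.Agent.Q304.KU.LeRF (f i) v} = Set.univ := by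
        ext i
        simp only [mem_ofPred_eq, mem_univ, iff_true]
        have hi := hfi i
        rw [wf_eq] at hi
        by_contra hcon
        have hm : Mn (f i) := by
          refine ⟨Pool.Agent.Q304.KU.lv_np (by omega) hi, fun v hv hvn => ?_⟩
          by_contra h'
          exact hcon ⟨v, hv, hvn, h'⟩
        have := Pool.Agent.Q304.KU.lv_unique hi (Pool.Agent.Q304.KU.lv_one.2 hm)
        omega
      have := Pool.Agent.Q304.KU.lv_mid hκ (by rw [hN]; exact univ_mem) (by omega) hu hx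
      omega
    refine ⟨hne, hdisj, fun heq => ?_⟩
    rw [heq, Set.inter_self] at hdisj
    exact hne.ne_empty hdisj

end Pool.Agent.Results.MP_e112c8_lc.Levels
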